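import Pool.Agent.MP_5fe217_an.H77.Defs

-- part MP_5fe217_an.H77.Basic
section

/-!
Helpers for the counterexample to the support point equivalence for starlike maps of the ball in dimension two.
-/

namespace Pool.Agent.MP_5fe217_an.H77

open Metric Set Filter Topology

/-- complex n-space with the Euclidean inner product -/
abbrev Cn (n : ℕ) := EuclideanSpace ℂ (Fin n)

/-- the open unit ball, as a type -/
abbrev Ball (n : ℕ) := ↥(ball (0 : Cn n) 1)

variable {n : ℕ} {i : Fin n}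


/-- the class of normalized starlike maps, as in the frozen statement with A the identity -/
def Star (g : (Cn n) → (Cn n)) : Prop :=
  DifferentiableOn ℂ g (ball 0 1) ∧ InjOn g (ball 0 1) ∧ g 0 = 0 ∧
    fderiv ℂ g 0 = ContinuousLinearMap.id ℂ (Cn n) ∧
    ∀ z ∈ ball (0 : (Cn n)) 1, z ≠ 0 → 0 < (inner ℂ z ((fderiv ℂ g z).inverse (g z))).re

lemma isInvertible_of_injective (D : (Cn n) →L[ℂ] (Cn n)) (h : Function.Injective D) : D.IsInvertible := by
  have hs : Function.Surjective D :=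
    (LinearMap.injective_iff_surjective (f := (D : (Cn n) →ₗ[ℂ] (Cn n)))).mp h
  refine ⟨(LinearEquiv.ofBijective (D : (Cn n) →ₗ[ℂ] (Cn n)) ⟨h, hs⟩).toContinuousLinearEquiv, ?_⟩
  ext v i
  rfl

lemma inverse_apply_of_injective (D : (Cn n) →L[ℂ] (Cn n)) (h : Function.Injective D) {v u : (Cn n)}
    (hv : D v = u) : D.inverse u = v := by
  rw [← hv]
  exact (isInvertible_of_injective D h).inverse_apply_self v

lemma norm_coord_lt {z : (Cn n)} (hz : z ∈ ball (0 : (Cn n)) 1) : ‖z i‖ < 1 :=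
  lt_of_le_of_lt (PiLp.norm_apply_le z i) (mem_ball_zero_iff.mp hz)

lemma re_inner_smul (z : (Cn n)) (c : ℂ) : (inner ℂ z (c • z)).re = c.re * ‖z‖ ^ 2 := by
  rw [inner_smul_right, inner_self_eq_norm_sq_to_K]
  have : ((‖z‖ : ℂ)) ^ 2 = ((‖z‖ ^ 2 : ℝ) : ℂ) := by push_cast; ring
  simp only [Complex.coe_algebraMap]
  rw [this, Complex.re_mul_ofReal]

/-- the radial map attached to a scalar function of the first coordinate -/
noncomputable def rad (i : Fin n) (φ : ℂ → ℂ) (z : (Cn n)) : (Cn n) := φ (z i) • z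

noncomputable def radD (i : Fin n) (a b : ℂ) (z : (Cn n)) : (Cn n) →L[ℂ] (Cn n) :=
  a • ContinuousLinearMap.id ℂ (Cn n) + (b • (EuclideanSpace.proj i : (Cn n) →L[ℂ] ℂ)).smulRight z

lemma radD_apply (a b : ℂ) (z v : (Cn n)) : radD i a b z v = a • v + (b * v i) • z := by
  simp [radD]

lemma hasFDerivAt_rad {φ : ℂ → ℂ} {b : ℂ} {z : (Cn n)} (h : HasDerivAt φ b (z i)) :
    HasFDerivAt (rad i φ) (radD i (φ (z i)) b z) z := by
  have h1 : HasFDerivAt (fun w : (Cn n) => w i) (EuclideanSpace.proj i : (Cn n) →L[ℂ] ℂ) z :=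
    (EuclideanSpace.proj i : (Cn n) →L[ℂ] ℂ).hasFDerivAt
  have h2 : HasFDerivAt (fun w : (Cn n) => φ (w i))
      (b • (EuclideanSpace.proj i : (Cn n) →L[ℂ] ℂ)) z :=
    HasDerivAt.comp_hasFDerivAt (f := fun w : (Cn n) => w i) z h h1
  exact h2.smul (hasFDerivAt_id z)

lemma radD_injective {a b : ℂ} {z : (Cn n)} (ha : a ≠ 0) (hab : a + z i * b ≠ 0) :
    Function.Injective (radD i a b z) := by
  rw [injective_iff_map_eq_zero]
  intro v hv
  rw [radD_apply] at hv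
  have h0 : (a • v + (b * v i) • z) i = 0 := by rw [hv]; rfl
  simp only [PiLp.add_apply, PiLp.smul_apply, smul_eq_mul] at h0
  have h1 : v i = 0 := by
    have : (a + z i * b) * v i = 0 := by linear_combination h0
    exact (mul_eq_zero.mp this).resolve_left hab
  rw [h1] at hv
  simpa [ha] using hv

lemma inverse_rad {φ : ℂ → ℂ} {b : ℂ} {z : (Cn n)} (h : HasDerivAt φ b (z i)) (ha : φ (z i) ≠ 0)
    (hab : φ (z i) + z i * b ≠ 0) :
    (fderiv ℂ (rad i φ) z).inverse (rad i φ z) = (φ (z i) / (φ (z i) + z i * b)) • z := by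
  rw [(hasFDerivAt_rad h).fderiv]
  apply inverse_apply_of_injective _ (radD_injective ha hab)
  rw [radD_apply, rad, smul_smul, ← add_smul]
  congr 1
  simp only [PiLp.smul_apply, smul_eq_mul]
  field_simp

lemma differentiableOn_rad {φ φ' : ℂ → ℂ} (hd : ∀ ζ : ℂ, ‖ζ‖ < 1 → HasDerivAt φ (φ' ζ) ζ) :
    DifferentiableOn ℂ (rad i φ) (ball 0 1) := fun _ hz =>
  (hasFDerivAt_rad (hd _ (norm_coord_lt hz))).differentiableAt.differentiableWithinAt

lemma fderiv_rad_zero {φ φ' : ℂ → ℂ} (hd : ∀ ζ : ℂ, ‖ζ‖ < 1 → HasDerivAt φ (φ' ζ) ζ)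
    (h0 : φ 0 = 1) : fderiv ℂ (rad i φ) 0 = ContinuousLinearMap.id ℂ (Cn n) := by
  have : HasDerivAt φ (φ' 0) ((0 : (Cn n)) i) := hd 0 (by simp)
  rw [(hasFDerivAt_rad this).fderiv]
  ext v i
  simp [radD_apply, h0]

lemma star_rad {φ φ' : ℂ → ℂ} (hd : ∀ ζ : ℂ, ‖ζ‖ < 1 → HasDerivAt φ (φ' ζ) ζ)
    (h0 : φ 0 = 1) (hne : ∀ ζ : ℂ, ‖ζ‖ < 1 → φ ζ ≠ 0)
    (hre : ∀ ζ : ℂ, ‖ζ‖ < 1 → 0 < (φ ζ / (φ ζ + ζ * φ' ζ)).re)
    (hinj : ∀ ζ ξ : ℂ, ‖ζ‖ < 1 → ‖ξ‖ < 1 → φ ζ * ζ = φ ξ * ξ → ζ = ξ) : Star (rad i φ) := by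
  refine ⟨differentiableOn_rad hd, ?_, by simp [rad], fderiv_rad_zero hd h0, ?_⟩
  · intro z hz w hw hzw
    have h1 : (rad i φ z) i = (rad i φ w) i := by rw [hzw]
    simp only [rad, PiLp.smul_apply, smul_eq_mul] at h1
    have h2 := hinj _ _ (norm_coord_lt hz) (norm_coord_lt hw) h1
    simp only [rad, h2] at hzw
    exact smul_right_injective (Cn n) (hne _ (norm_coord_lt hw)) hzw
  · intro z hz hz0
    have hz' := norm_coord_lt (i := i) hz
    have hab : φ (z i) + z i * φ' (z i) ≠ 0 := by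
      intro h
      have := hre _ hz'
      rw [h] at this
      simp at this
    rw [inverse_rad (hd _ hz') (hne _ hz') hab, re_inner_smul]
    have : 0 < ‖z‖ := norm_pos_iff.mpr hz0
    exact mul_pos (hre _ hz') (by positivity)

/-- small perturbations of the identity are starlike -/
lemma star_id_add {Q : (Cn n) → (Cn n)} (hd : DifferentiableOn ℂ Q (ball 0 1)) (h0 : Q 0 = 0)
    (h1 : fderiv ℂ Q 0 = 0) (hb : ∀ z ∈ ball (0 : (Cn n)) 1, ‖fderiv ℂ Q z‖ ≤ 1 / 4) :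
    Star (id + Q) := by
  have hdA : ∀ z ∈ ball (0 : (Cn n)) 1, DifferentiableAt ℂ Q z := fun z hz =>
    hd.differentiableAt (isOpen_ball.mem_nhds hz)
  have hlip : ∀ x ∈ ball (0 : (Cn n)) 1, ∀ y ∈ ball (0 : (Cn n)) 1, ‖Q y - Q x‖ ≤ 1 / 4 * ‖y - x‖ :=
    fun x hx y hy => (convex_ball (0 : (Cn n)) 1).norm_image_sub_le_of_norm_fderiv_le hdA hb hx hy
  have hfd : ∀ z ∈ ball (0 : (Cn n)) 1,
      fderiv ℂ (id + Q) z = ContinuousLinearMap.id ℂ (Cn n) + fderiv ℂ Q z := fun z hz =>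
    ((hasFDerivAt_id z).add (hdA z hz).hasFDerivAt).fderiv
  have h00 : (0 : (Cn n)) ∈ ball (0 : (Cn n)) 1 := by simp
  refine ⟨differentiableOn_id.add hd, ?_, by simp [h0], by rw [hfd 0 h00, h1, add_zero], ?_⟩
  · intro x hx y hy hxy
    have h2 := hlip x hx y hy
    have h3 : Q y - Q x = -(y - x) := by
      simp only [Pi.add_apply, id] at hxy
      have : Q y - Q x = (y + Q y) - (x + Q x) - (y - x) := by abel
      rw [this, hxy]; simp
    rw [h3, norm_neg] at h2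
    have h4 : ‖y - x‖ = 0 := by nlinarith [norm_nonneg (y - x)]
    exact (sub_eq_zero.mp (norm_eq_zero.mp h4)).symm
  · intro z hz hz0
    rw [hfd z hz]
    set B := fderiv ℂ Q z
    have hB : ∀ v, ‖B v‖ ≤ 1 / 4 * ‖v‖ := fun v =>
      (B.le_opNorm v).trans (mul_le_mul_of_nonneg_right (hb z hz) (norm_nonneg _))
    have hinj : Function.Injective (ContinuousLinearMap.id ℂ (Cn n) + B) := by
      rw [injective_iff_map_eq_zero]
      intro v hv
      have h2 : B v = -v := by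
        simp only [_root_.add_apply, ContinuousLinearMap.id_apply] at hv
        exact eq_neg_of_add_eq_zero_right hv
      have h3 := hB v
      rw [h2, norm_neg] at h3
      exact norm_eq_zero.mp (by nlinarith [norm_nonneg v])
    have hs : Function.Surjective (ContinuousLinearMap.id ℂ (Cn n) + B) :=
      (LinearMap.injective_iff_surjective
        (f := ((ContinuousLinearMap.id ℂ (Cn n) + B : (Cn n) →L[ℂ] (Cn n)) : (Cn n) →ₗ[ℂ] (Cn n)))).mp hinj
    obtain ⟨v, hv⟩ := hs ((id + Q : (Cn n) → (Cn n)) z)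
    rw [inverse_apply_of_injective _ hinj hv]
    simp only [_root_.add_apply, ContinuousLinearMap.id_apply, Pi.add_apply, id] at hv
    have hQ : ‖Q z‖ ≤ 1 / 4 * ‖z‖ := by simpa [h0] using hlip 0 h00 z hz
    have hzpos : 0 < ‖z‖ := norm_pos_iff.mpr hz0
    have e1 : v - z = Q z - B v := by
      have : v - z = (v + B v) - (z + Q z) + (Q z - B v) := by abel
      rw [this, hv]; simp
    have e2 : ‖v - z‖ ≤ 1 / 4 * ‖z‖ + 1 / 4 * ‖v‖ := by
      rw [e1]; exact (norm_sub_le _ _).trans (add_le_add hQ (hB v))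
    have e3 : ‖v‖ ≤ ‖z‖ + ‖v - z‖ := by
      calc ‖v‖ = ‖z + (v - z)‖ := by congr 1; abel
        _ ≤ _ := norm_add_le _ _
    have e4 : ‖v - z‖ ≤ 2 / 3 * ‖z‖ := by linarith
    have e5 : inner ℂ z v = inner ℂ z ((1 : ℂ) • z) + inner ℂ z (v - z) := by
      rw [← inner_add_right]; congr 1; simp
    rw [e5, Complex.add_re, re_inner_smul]
    have e6 : |(inner ℂ z (v - z)).re| ≤ ‖z‖ * ‖v - z‖ :=
      (Complex.abs_re_le_norm _).trans (norm_inner_le_norm _ _)
    have e7 := neg_abs_le (inner ℂ z (v - z)).re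
    simp only [Complex.one_re, one_mul]
    nlinarith

end Pool.Agent.MP_5fe217_an.H77

end

-- part MP_5fe217_an.H77.Functional
section

namespace Pool.Agent.MP_5fe217_an.H77

open Metric Set Filter Topology

variable {n : ℕ} {i : Fin n}

/-- continuous linear functionals on holomorphic maps of the ball, as in the frozen statement -/
def Fnl (L : ((Cn n) → (Cn n)) → ℂ) : Prop :=
  (∀ g₁ g₂ : (Cn n) → (Cn n), DifferentiableOn ℂ g₁ (ball 0 1) → DifferentiableOn ℂ g₂ (ball 0 1) →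
      L (g₁ + g₂) = L g₁ + L g₂) ∧
    (∀ (c : ℂ) (g : (Cn n) → (Cn n)), DifferentiableOn ℂ g (ball 0 1) → L (c • g) = c * L g) ∧
    ∃ K : Set (Cn n), IsCompact K ∧ K ⊆ ball 0 1 ∧ ∃ C : ℝ, ∀ g : (Cn n) → (Cn n),
      DifferentiableOn ℂ g (ball 0 1) → ∀ M : ℝ, (∀ x ∈ K, ‖g x‖ ≤ M) → ‖L g‖ ≤ C * M

lemma Fnl.sub {L : ((Cn n) → (Cn n)) → ℂ} (hL : Fnl L) {g₁ g₂ : (Cn n) → (Cn n)}
    (h₁ : DifferentiableOn ℂ g₁ (ball 0 1)) (h₂ : DifferentiableOn ℂ g₂ (ball 0 1)) :
    L (g₁ - g₂) = L g₁ - L g₂ := by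
  have : g₁ - g₂ = g₁ + (-1 : ℂ) • g₂ := by ext z i; simp; ring
  rw [this, hL.1 _ _ h₁ (h₂.const_smul _), hL.2.1 _ _ h₂]
  ring

lemma Fnl.congr {L : ((Cn n) → (Cn n)) → ℂ} (hL : Fnl L) {g₁ g₂ : (Cn n) → (Cn n)}
    (h₁ : DifferentiableOn ℂ g₁ (ball 0 1)) (h₂ : DifferentiableOn ℂ g₂ (ball 0 1))
    (h : ∀ z ∈ ball (0 : (Cn n)) 1, g₁ z = g₂ z) : L g₁ = L g₂ := by
  obtain ⟨K, _, hK, C, hC⟩ := hL.2.2
  have := hC (g₁ - g₂) (h₁.sub h₂) 0 (fun x hx => by simp [h x (hK hx)])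
  rw [hL.sub h₁ h₂, mul_zero] at this
  exact sub_eq_zero.mp (norm_le_zero_iff.mp this)

lemma differentiableOn_dilate {P : (Cn n) → (Cn n)} (hP : DifferentiableOn ℂ P (ball 0 1)) {r : ℝ}
    (hr : 0 < r) : DifferentiableOn ℂ (fun z : (Cn n) => P ((r : ℂ) • z)) (ball 0 (1 / r)) := by
  refine hP.comp (f := fun z : (Cn n) => (r : ℂ) • z) (by fun_prop) ?_
  intro z hz
  rw [mem_ball_zero_iff] at hz ⊢
  rw [norm_smul, Complex.norm_real, Real.norm_of_nonneg hr.le]
  rw [lt_div_iff₀ hr] at hz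
  linarith

lemma exists_bound_fderiv_dilate {P : (Cn n) → (Cn n)} (hP : DifferentiableOn ℂ P (ball 0 1)) {r : ℝ}
    (hr : 0 < r) (hr1 : r < 1) :
    ∃ B : ℝ, 0 < B ∧ ∀ z ∈ ball (0 : (Cn n)) 1, ‖fderiv ℂ (fun z : (Cn n) => P ((r : ℂ) • z)) z‖ ≤ B := by
  set ρ : ℝ := (1 + r) / 2 with hρ
  have hρ1 : ρ < 1 := by rw [hρ]; linarith
  have hsub : closedBall (0 : (Cn n)) ρ ⊆ ball 0 1 := closedBall_subset_ball hρ1
  obtain ⟨M, hM⟩ := (isCompact_closedBall (0 : (Cn n)) ρ).exists_bound_of_continuousOn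
    (hP.continuousOn.mono hsub)
  set δ : ℝ := (1 - r) / 2 with hδ
  have hδ0 : 0 < δ := by rw [hδ]; linarith
  have hM0 : 0 ≤ M := (norm_nonneg _).trans (hM 0 (by simp; linarith))
  refine ⟨(2 * M + 1) / δ, by positivity, fun z hz => ?_⟩
  have hz' := mem_ball_zero_iff.mp hz
  have key : ∀ w ∈ ball z δ, (r : ℂ) • w ∈ closedBall (0 : (Cn n)) ρ := by
    intro w hw
    rw [mem_closedBall_zero_iff, norm_smul, Complex.norm_real, Real.norm_of_nonneg hr.le]
    have h1 : ‖w‖ ≤ ‖z‖ + ‖w - z‖ := by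
      calc ‖w‖ = ‖z + (w - z)‖ := by congr 1; abel
        _ ≤ _ := norm_add_le _ _
    have h2 : ‖w - z‖ < δ := by rwa [mem_ball, dist_eq_norm] at hw
    have h3 : ‖w‖ ≤ 1 + δ := by linarith
    calc r * ‖w‖ ≤ r * (1 + δ) := by gcongr
      _ ≤ ρ := by rw [hρ, hδ]; nlinarith
  apply Complex.norm_fderiv_le_div_of_mapsTo_ball _ _ hδ0
  · exact hP.comp (f := fun z : (Cn n) => (r : ℂ) • z) (by fun_prop) (fun w hw => hsub (key w hw))
  · intro w hw
    rw [mem_closedBall, dist_eq_norm]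
    have h1 := hM _ (key w hw)
    have h2 := hM _ (key z (mem_ball_self hδ0))
    have := norm_sub_le (P ((r : ℂ) • w)) (P ((r : ℂ) • z))
    linarith

lemma Fnl.dilate_eq_zero {L : ((Cn n) → (Cn n)) → ℂ} (hL : Fnl L)
    (hmax : ∀ g, Star g → (L g).re ≤ (L id).re) {P : (Cn n) → (Cn n)}
    (hP : DifferentiableOn ℂ P (ball 0 1)) (h0 : P 0 = 0) (h1 : fderiv ℂ P 0 = 0) {r : ℝ}
    (hr : 0 < r) (hr1 : r < 1) : L (fun z : (Cn n) => P ((r : ℂ) • z)) = 0 := by
  obtain ⟨B, hB0, hB⟩ := exists_bound_fderiv_dilate hP hr hr1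
  set Q : (Cn n) → (Cn n) := fun z : (Cn n) => P ((r : ℂ) • z) with hQ
  have hQd : DifferentiableOn ℂ Q (ball 0 1) :=
    (differentiableOn_dilate hP hr).mono (ball_subset_ball (by
      rw [le_div_iff₀ hr]; linarith))
  have hQA : ∀ z ∈ ball (0 : (Cn n)) 1, DifferentiableAt ℂ Q z := fun z hz =>
    hQd.differentiableAt (isOpen_ball.mem_nhds hz)
  have h00 : (0 : (Cn n)) ∈ ball (0 : (Cn n)) 1 := by simp
  have hQ1 : fderiv ℂ Q 0 = 0 := by
    have hPA : HasFDerivAt P (0 : (Cn n) →L[ℂ] (Cn n)) ((r : ℂ) • (0 : (Cn n))) := by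
      rw [smul_zero, ← h1]
      exact (hP.differentiableAt (isOpen_ball.mem_nhds h00)).hasFDerivAt
    have := HasFDerivAt.comp (0 : (Cn n)) (f := fun z : (Cn n) => (r : ℂ) • z) hPA
      ((hasFDerivAt_id (0 : (Cn n))).const_smul (r : ℂ))
    have h2 := this.fderiv
    rw [ContinuousLinearMap.zero_comp] at h2
    exact h2
  set a := L Q
  set t : ℝ := 1 / (4 * B * (‖a‖ + 1)) with ht
  have ht0 : 0 < t := by positivity
  set ε : ℂ := (t : ℂ) * (starRingEnd ℂ) a with hε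
  have hεn : ‖ε‖ * B ≤ 1 / 4 := by
    rw [hε, norm_mul, Complex.norm_real, Real.norm_of_nonneg ht0.le, Complex.norm_conj, ht]
    rw [div_mul_eq_mul_div, div_mul_eq_mul_div, div_le_iff₀ (by positivity)]
    nlinarith [norm_nonneg a]
  have hstar : Star (id + ε • Q) := by
    apply star_id_add (hQd.const_smul ε)
    · simp [hQ, h0]
    · rw [fderiv_const_smul (hQA 0 h00), hQ1, smul_zero]
    · intro z hz
      rw [fderiv_const_smul (hQA z hz), norm_smul]
      exact (mul_le_mul_of_nonneg_left (hB z hz) (norm_nonneg _)).trans hεn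
  have h2 := hmax _ hstar
  rw [hL.1 _ _ differentiableOn_id (hQd.const_smul ε), hL.2.1 _ _ hQd, Complex.add_re] at h2
  have h3 : (ε * a).re = t * ‖a‖ ^ 2 := by
    rw [hε, mul_assoc, Complex.conj_mul', Complex.re_ofReal_mul]
    norm_cast
  have h4 : t * ‖a‖ ^ 2 ≤ 0 := by rw [← h3]; linarith
  have h5 : ‖a‖ ^ 2 ≤ 0 := by
    by_contra h
    push Not at h
    nlinarith [mul_pos ht0 h]
  exact norm_eq_zero.mp (by nlinarith [norm_nonneg a])

lemma Fnl.eq_zero {L : ((Cn n) → (Cn n)) → ℂ} (hL : Fnl L)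
    (hmax : ∀ g, Star g → (L g).re ≤ (L id).re) {P : (Cn n) → (Cn n)}
    (hP : DifferentiableOn ℂ P (ball 0 1)) (h0 : P 0 = 0) (h1 : fderiv ℂ P 0 = 0) :
    L P = 0 := by
  obtain ⟨K, hKc, hK, C, hC⟩ := hL.2.2
  -- K lies in a smaller closed ball
  obtain ⟨s, hs1, hKs⟩ : ∃ s : ℝ, s < 1 ∧ K ⊆ closedBall 0 s := by
    rcases K.eq_empty_or_nonempty with rfl | hne
    · exact ⟨0, by norm_num, empty_subset _⟩
    · obtain ⟨x, hx, hmax⟩ := hKc.exists_isMaxOn hne continuous_norm.continuousOn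
      exact ⟨‖x‖, mem_ball_zero_iff.mp (hK hx), fun y hy => mem_closedBall_zero_iff.mpr (hmax hy)⟩
  have huc : UniformContinuousOn P (closedBall 0 s) :=
    (isCompact_closedBall (0 : (Cn n)) s).uniformContinuousOn_of_continuous
      (hP.continuousOn.mono (closedBall_subset_ball hs1))
  have key : ∀ η : ℝ, 0 < η → ‖L P‖ ≤ C * η := by
    intro η hη
    obtain ⟨δ, hδ0, hδ⟩ := Metric.uniformContinuousOn_iff.mp huc η hη
    set r : ℝ := 1 - min δ 1 / 2 with hr
    have hm0 : 0 < min δ 1 := lt_min hδ0 one_pos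
    have hm1 : min δ 1 ≤ 1 := min_le_right _ _
    have hm2 : min δ 1 ≤ δ := min_le_left _ _
    have hr0 : 0 < r := by rw [hr]; linarith
    have hr1 : r < 1 := by rw [hr]; linarith
    have hQd : DifferentiableOn ℂ (fun z : (Cn n) => P ((r : ℂ) • z)) (ball 0 1) :=
      (differentiableOn_dilate hP hr0).mono (ball_subset_ball (by
        rw [le_div_iff₀ hr0]; linarith))
    have h2 := hC _ (hP.sub hQd) η (fun x hx => by
      have hx1 : ‖x‖ ≤ s := mem_closedBall_zero_iff.mp (hKs hx)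
      have hx2 : (r : ℂ) • x ∈ closedBall (0 : (Cn n)) s := by
        rw [mem_closedBall_zero_iff, norm_smul, Complex.norm_real, Real.norm_of_nonneg hr0.le]
        nlinarith [norm_nonneg x]
      have hx3 : dist x ((r : ℂ) • x) < δ := by
        rw [dist_eq_norm]
        have : x - (r : ℂ) • x = ((1 - r : ℝ) : ℂ) • x := by
          push_cast; rw [sub_smul, one_smul]
        rw [this, norm_smul, Complex.norm_real, Real.norm_of_nonneg (by linarith)]
        have : (1 - r) * ‖x‖ ≤ (1 - r) * 1 := by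
          apply mul_le_mul_of_nonneg_left <;> linarith
        have : 1 - r = min δ 1 / 2 := by rw [hr]; ring
        linarith
      have := hδ x (hKs hx) _ hx2 hx3
      rw [dist_eq_norm] at this
      exact this.le)
    rw [hL.sub hP hQd, hL.dilate_eq_zero hmax hP h0 h1 hr0 hr1, sub_zero] at h2
    exact h2
  by_contra hne
  have hpos : 0 < ‖L P‖ := norm_pos_iff.mpr hne
  have h3 := key (‖L P‖ / (2 * (|C| + 1))) (by positivity)
  have h4 : C * (‖L P‖ / (2 * (|C| + 1))) ≤ (|C| + 1) * (‖L P‖ / (2 * (|C| + 1))) := by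
    apply mul_le_mul_of_nonneg_right _ (by positivity)
    linarith [le_abs_self C]
  have h5 : (|C| + 1) * (‖L P‖ / (2 * (|C| + 1))) = ‖L P‖ / 2 := by
    field_simp
  linarith

/-- the identity is not a support point of the starlike class -/
lemma Fnl.const_of_id_max {L : ((Cn n) → (Cn n)) → ℂ} (hL : Fnl L)
    (hmax : ∀ g, Star g → (L g).re ≤ (L id).re) {g : (Cn n) → (Cn n)}
    (hg : DifferentiableOn ℂ g (ball 0 1)) (h0 : g 0 = 0)
    (h1 : fderiv ℂ g 0 = ContinuousLinearMap.id ℂ (Cn n)) : L g = L id := by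
  have h00 : (0 : (Cn n)) ∈ ball (0 : (Cn n)) 1 := by simp
  have h := hL.eq_zero hmax (P := g - id) (hg.sub differentiableOn_id) (by simp [h0]) (by
    rw [fderiv_sub (hg.differentiableAt (isOpen_ball.mem_nhds h00)) differentiableAt_id,
      h1, fderiv_id, sub_self])
  rw [hL.sub hg differentiableOn_id] at h
  exact sub_eq_zero.mp h

end Pool.Agent.MP_5fe217_an.H77

end

-- part MP_5fe217_an.H77.Examples
section

namespace Pool.Agent.MP_5fe217_an.H77

open Metric Set Filter Topology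

variable {n : ℕ} {i : Fin n}

/-- the class of generating fields, as in the frozen statement with A the identity -/
def Car (g : (Cn n) → (Cn n)) : Prop :=
  DifferentiableOn ℂ g (ball 0 1) ∧ g 0 = 0 ∧ fderiv ℂ g 0 = ContinuousLinearMap.id ℂ (Cn n) ∧
    ∀ z ∈ ball (0 : (Cn n)) 1, z ≠ 0 → 0 < (inner ℂ z (g z)).re

noncomputable def ax (i : Fin n) (ζ : ℂ) : (Cn n) := EuclideanSpace.single i ζ

lemma ax_zero_coord (ζ : ℂ) : ax i ζ i = ζ := by simp [ax]

lemma norm_ax (ζ : ℂ) : ‖ax i ζ‖ = ‖ζ‖ := by simp [ax]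

lemma ax_eq_smul (ζ : ℂ) : ax i ζ = ζ • ax i 1 := by
  ext j
  by_cases h : j = i <;> simp [ax, h]

/-- the functional that supports the generating field -/
noncomputable def L0 (i : Fin n) (g : (Cn n) → (Cn n)) : ℂ :=
  (g (ax i (Complex.I / 2)) i - g (ax i (-(Complex.I / 2))) i) / Complex.I

lemma norm_I_half : ‖Complex.I / 2‖ = 1 / 2 := by simp

lemma fnl_L0 : Fnl (L0 i) := by
  refine ⟨fun g₁ g₂ _ _ => ?_, fun c g _ => ?_, {ax i (Complex.I / 2), ax i (-(Complex.I / 2))},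
    (Set.toFinite _).isCompact, ?_, 2, fun g _ M hM => ?_⟩
  · simp only [L0, Pi.add_apply, PiLp.add_apply]; ring
  · simp only [L0, Pi.smul_apply, PiLp.smul_apply, smul_eq_mul]; ring
  · intro x hx
    rcases hx with rfl | rfl <;> rw [mem_ball_zero_iff, norm_ax]
    · rw [norm_I_half]; norm_num
    · rw [norm_neg, norm_I_half]; norm_num
  · have h1 := (PiLp.norm_apply_le (g (ax i (Complex.I / 2))) i).trans (hM _ (by simp))
    have h2 := (PiLp.norm_apply_le (g (ax i (-(Complex.I / 2)))) i).trans (hM _ (by simp))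
    rw [L0, norm_div, Complex.norm_I, div_one]
    exact (norm_sub_le _ _).trans (by linarith)

lemma L0_le {g : (Cn n) → (Cn n)} (hg : Car g) : (L0 i g).re ≤ 5 / 3 := by
  obtain ⟨hd, h0, h1, hre⟩ := hg
  have h00 : (0 : (Cn n)) ∈ ball (0 : (Cn n)) 1 := by simp
  set u : ℂ → ℂ := fun ζ => g (ζ • ax i 1) i with hu
  have hmem : ∀ ζ ∈ ball (0 : ℂ) 1, ζ • ax i 1 ∈ ball (0 : (Cn n)) 1 := fun ζ hζ => by
    rw [← ax_eq_smul, mem_ball_zero_iff, norm_ax]; exact mem_ball_zero_iff.mp hζ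
  have hud : DifferentiableOn ℂ u (ball 0 1) := by
    have h2 : DifferentiableOn ℂ (fun ζ : ℂ => g (ζ • ax i 1)) (ball 0 1) :=
      hd.comp (f := fun ζ : ℂ => ζ • ax i 1) (by fun_prop) hmem
    exact (EuclideanSpace.proj i : (Cn n) →L[ℂ] ℂ).differentiable.comp_differentiableOn h2
  have hu0 : u 0 = 0 := by simp [hu, h0]
  have hu1 : HasDerivAt u 1 0 := by
    have hgA : HasFDerivAt g (ContinuousLinearMap.id ℂ (Cn n)) ((0 : ℂ) • ax i 1) := by
      rw [zero_smul, ← h1]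
      exact (hd.differentiableAt (isOpen_ball.mem_nhds h00)).hasFDerivAt
    have h2 : HasDerivAt (fun ζ : ℂ => ζ • ax i 1) (ax i 1) 0 := by
      simpa using (hasDerivAt_id (0 : ℂ)).smul_const (ax i 1)
    have h3 := HasFDerivAt.comp_hasDerivAt (0 : ℂ) (f := fun ζ : ℂ => ζ • ax i 1) hgA h2
    have h4 := HasFDerivAt.comp_hasDerivAt (0 : ℂ)
      (EuclideanSpace.proj i : (Cn n) →L[ℂ] ℂ).hasFDerivAt h3
    have h5 : (EuclideanSpace.proj i : (Cn n) →L[ℂ] ℂ)
        ((ContinuousLinearMap.id ℂ (Cn n)) (ax i 1)) = 1 := ax_zero_coord 1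
    rw [h5] at h4
    exact h4
  set p : ℂ → ℂ := dslope u 0 with hp
  have hb0 : ball (0 : ℂ) 1 ∈ 𝓝 (0 : ℂ) := ball_mem_nhds _ one_pos
  have hpd : DifferentiableOn ℂ p (ball 0 1) := (Complex.differentiableOn_dslope hb0).mpr hud
  have hp0 : p 0 = 1 := by rw [hp, dslope_same, hu1.deriv]
  have hpv : ∀ ζ : ℂ, ζ ≠ 0 → p ζ = u ζ / ζ := fun ζ hζ => by
    rw [hp, dslope_of_ne _ hζ, slope_def_field, hu0, sub_zero, sub_zero]
  have hpre : ∀ ζ ∈ ball (0 : ℂ) 1, 0 < (p ζ).re := by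
    intro ζ hζ
    rcases eq_or_ne ζ 0 with rfl | hζ0
    · rw [hp0]; norm_num
    · have hz0 : ζ • ax i 1 ≠ 0 := by
        rw [← ax_eq_smul, ← norm_ne_zero_iff, norm_ax]; exact norm_ne_zero_iff.mpr hζ0
      have h2 := hre _ (hmem ζ hζ) hz0
      have h3 : inner ℂ (ζ • ax i 1) (g (ζ • ax i 1)) = p ζ * ((‖ζ‖ ^ 2 : ℝ) : ℂ) := by
        rw [hpv ζ hζ0]
        have : u ζ = g (ζ • ax i 1) i := rfl
        rw [this]
        generalize g (ζ • ax i 1) = w
        rw [← ax_eq_smul, ax, EuclideanSpace.inner_single_left]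
        push_cast
        rw [← Complex.conj_mul']
        field_simp
      rw [h3, Complex.re_mul_ofReal] at h2
      have : 0 < ‖ζ‖ ^ 2 := by positivity
      exact (mul_pos_iff_of_pos_right this).mp h2
  set q : ℂ → ℂ := fun ζ => (p ζ + p (-ζ)) / 2 with hq
  have hneg : ∀ ζ ∈ ball (0 : ℂ) 1, -ζ ∈ ball (0 : ℂ) 1 := fun ζ hζ => by simpa using hζ
  have hqd : DifferentiableOn ℂ q (ball 0 1) :=
    (hpd.add (hpd.comp (f := fun ζ : ℂ => -ζ) (by fun_prop) hneg)).div_const 2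
  have hq0 : q 0 = 1 := by simp [hq, hp0]
  have hqre : ∀ ζ ∈ ball (0 : ℂ) 1, 0 < (q ζ).re := fun ζ hζ => by
    have h2 := hpre ζ hζ
    have h3 := hpre _ (hneg ζ hζ)
    simp only [hq, Complex.div_ofNat_re, Complex.add_re]
    linarith
  have hq1 : HasDerivAt q 0 0 := by
    have h2 : HasDerivAt p (deriv p 0) 0 := (hpd.differentiableAt hb0).hasDerivAt
    have h3 : HasDerivAt p (deriv p 0) (-0) := by simpa using h2
    have h4 := HasDerivAt.comp (0 : ℂ) (h := fun ζ : ℂ => -ζ) h3 (hasDerivAt_neg (0 : ℂ))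
    have h5 := (h2.add h4).div_const 2
    simpa using h5
  have hne : ∀ ζ ∈ ball (0 : ℂ) 1, q ζ + 1 ≠ 0 := fun ζ hζ h => by
    have h2 := hqre ζ hζ
    have h3 : (q ζ + 1).re = 0 := by rw [h]; simp
    simp at h3
    linarith
  set ψ : ℂ → ℂ := fun ζ => (q ζ - 1) / (q ζ + 1) with hψ
  have hψd : DifferentiableOn ℂ ψ (ball 0 1) := (hqd.sub_const 1).div (hqd.add_const 1) hne
  have hψ0 : ψ 0 = 0 := by simp [hψ, hq0]
  have hψ1 : HasDerivAt ψ 0 0 := by
    have := (hq1.sub_const 1).div (hq1.add_const 1) (hne 0 (by simp))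
    simp only [zero_mul, mul_zero, sub_zero, zero_div] at this
    exact this
  have hmaps : MapsTo ψ (ball 0 1) (closedBall (ψ 0) 1) := by
    intro ζ hζ
    rw [hψ0, mem_closedBall_zero_iff, hψ]
    simp only
    rw [norm_div, div_le_one (norm_pos_iff.mpr (hne ζ hζ))]
    have h2 := hqre ζ hζ
    rw [← sq_le_sq₀ (norm_nonneg _) (norm_nonneg _), Complex.sq_norm, Complex.sq_norm,
      Complex.normSq_apply, Complex.normSq_apply]
    simp
    nlinarith
  have hlo : (fun w => ψ w - ψ 0) =o[𝓝 0] (fun w : ℂ => ‖w - 0‖ ^ 1) := by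
    have := hψ1.isLittleO
    simpa using this.norm_right
  have hI : Complex.I / 2 ∈ ball (0 : ℂ) 1 := by
    rw [mem_ball_zero_iff, norm_I_half]; norm_num
  have hS := Complex.dist_le_mul_div_pow_of_mapsTo_ball_of_isLittleO hψd hmaps hlo hI
  rw [hψ0, dist_zero_right, dist_zero_right, norm_I_half] at hS
  have hL : L0 i g = q (Complex.I / 2) := by
    have hI0 : Complex.I / 2 ≠ 0 := by simp
    simp only [hq]
    rw [hpv _ hI0, hpv _ (neg_ne_zero.mpr hI0), L0, ax_eq_smul (Complex.I / 2),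
      ax_eq_smul (-(Complex.I / 2))]
    simp only [hu]
    field_simp
    ring
  rw [hL]
  have h2 : ‖q (Complex.I / 2) - 1‖ ≤ 1 / 4 * ‖q (Complex.I / 2) + 1‖ := by
    simp only [hψ] at hS
    rw [norm_div, div_le_iff₀ (norm_pos_iff.mpr (hne _ hI))] at hS
    linarith
  generalize q (Complex.I / 2) = w at h2
  have h3 : ‖w - 1‖ ^ 2 ≤ (1 / 4 * ‖w + 1‖) ^ 2 := by gcongr
  rw [mul_pow, Complex.sq_norm, Complex.sq_norm, Complex.normSq_apply, Complex.normSq_apply] at h3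
  simp at h3
  nlinarith [sq_nonneg w.im, sq_nonneg (w.re - 5 / 3)]

lemma one_sub_ne {w : ℂ} (h : ‖w‖ < 1) : 1 - w ≠ 0 := by
  intro h1
  have : w = 1 := by linear_combination -h1
  rw [this] at h
  simp at h

lemma one_add_ne {w : ℂ} (h : ‖w‖ < 1) : 1 + w ≠ 0 := by
  have := one_sub_ne (w := -w) (by simpa using h)
  simpa using this

lemma norm_sq_lt {w : ℂ} (h : ‖w‖ < 1) : ‖w ^ 2‖ < 1 := by
  rw [norm_pow]; nlinarith [norm_nonneg w]

lemma re_cayley_pos {w : ℂ} (h : ‖w‖ < 1) : 0 < ((1 - w) / (1 + w)).re := by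
  have h1 : 0 < Complex.normSq (1 + w) := Complex.normSq_pos.mpr (one_add_ne h)
  have h2 : w.re ^ 2 + w.im ^ 2 < 1 := by
    have : ‖w‖ ^ 2 < 1 := by nlinarith [norm_nonneg w]
    rw [Complex.sq_norm, Complex.normSq_apply] at this
    nlinarith
  rw [Complex.div_re, ← add_div]
  apply div_pos _ h1
  simp
  nlinarith

/-- the scalar factor of the counterexample -/
noncomputable def phiF (ζ : ℂ) : ℂ := 1 / (1 - ζ ^ 2)

/-- the scalar factor of its generating field -/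
noncomputable def phiH (ζ : ℂ) : ℂ := (1 - ζ ^ 2) / (1 + ζ ^ 2)

/-- the scalar factor of the auxiliary starlike maps, for s = 1 and s = -1 -/
noncomputable def phiG (s ζ : ℂ) : ℂ := (1 + s * ζ / 3) / (1 - s * ζ)

lemma hasDerivAt_phiF (ζ : ℂ) (h : ‖ζ‖ < 1) : HasDerivAt phiF (2 * ζ / (1 - ζ ^ 2) ^ 2) ζ := by
  have h1 : HasDerivAt (fun ζ : ℂ => 1 - ζ ^ 2) (-(2 * ζ)) ζ := by
    simpa using (hasDerivAt_pow 2 ζ).const_sub 1
  have := (hasDerivAt_const ζ (1 : ℂ)).div h1 (one_sub_ne (norm_sq_lt h))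
  have e : (0 * (1 - ζ ^ 2) - 1 * -(2 * ζ)) / (1 - ζ ^ 2) ^ 2 = 2 * ζ / (1 - ζ ^ 2) ^ 2 := by ring
  rw [e] at this
  exact this

lemma phiF_quot (ζ : ℂ) (h : ‖ζ‖ < 1) :
    phiF ζ / (phiF ζ + ζ * (2 * ζ / (1 - ζ ^ 2) ^ 2)) = phiH ζ := by
  have h1 := one_sub_ne (norm_sq_lt h)
  have h2 := one_add_ne (norm_sq_lt h)
  have : phiF ζ + ζ * (2 * ζ / (1 - ζ ^ 2) ^ 2) = (1 + ζ ^ 2) / (1 - ζ ^ 2) ^ 2 := by
    unfold phiF; field_simp; ring
  rw [this]
  unfold phiF phiH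
  field_simp

lemma star_F : Star (rad i phiF) := by
  apply star_rad hasDerivAt_phiF (by simp [phiF])
  · intro ζ h
    exact one_div_ne_zero (one_sub_ne (norm_sq_lt h))
  · intro ζ h
    rw [phiF_quot ζ h]
    exact re_cayley_pos (norm_sq_lt h)
  · intro ζ ξ h h' he
    have h1 := one_sub_ne (norm_sq_lt h)
    have h2 := one_sub_ne (norm_sq_lt h')
    have h3 : 1 + ζ * ξ ≠ 0 := one_add_ne (by
      rw [norm_mul]; nlinarith [norm_nonneg ζ, norm_nonneg ξ])
    unfold phiF at he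
    field_simp at he
    have : (ζ - ξ) * (1 + ζ * ξ) = 0 := by linear_combination he
    exact sub_eq_zero.mp ((mul_eq_zero.mp this).resolve_right h3)

lemma inverse_F {z : (Cn n)} (hz : z ∈ ball (0 : (Cn n)) 1) :
    (fderiv ℂ (rad i phiF) z).inverse (rad i phiF z) = rad i phiH z := by
  have h := norm_coord_lt (i := i) hz
  have h1 := one_sub_ne (norm_sq_lt h)
  have h2 := one_add_ne (norm_sq_lt h)
  rw [inverse_rad (hasDerivAt_phiF _ h) (one_div_ne_zero h1), phiF_quot _ h]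
  · rfl
  · have : phiF (z i) + z i * (2 * z i / (1 - z i ^ 2) ^ 2) = (1 + z i ^ 2) / (1 - z i ^ 2) ^ 2 := by
      unfold phiF; field_simp; ring
    rw [this]
    exact div_ne_zero h2 (pow_ne_zero _ h1)

lemma car_H : Car (rad i phiH) := by
  have hd : ∀ ζ : ℂ, ‖ζ‖ < 1 → HasDerivAt phiH (deriv phiH ζ) ζ := by
    intro ζ h
    apply DifferentiableAt.hasDerivAt
    unfold phiH
    exact DifferentiableAt.div (by fun_prop) (by fun_prop) (one_add_ne (norm_sq_lt h))
  refine ⟨differentiableOn_rad hd, by simp [rad], fderiv_rad_zero hd (by simp [phiH]), ?_⟩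
  intro z hz hz0
  rw [rad, re_inner_smul]
  have : 0 < ‖z‖ := norm_pos_iff.mpr hz0
  exact mul_pos (re_cayley_pos (norm_sq_lt (norm_coord_lt hz))) (by positivity)

lemma car_id : Car (id : Cn n → Cn n) := by
  refine ⟨differentiableOn_id, rfl, fderiv_id, fun z _ hz0 => ?_⟩
  have := re_inner_smul z 1
  rw [one_smul] at this
  have h : 0 < ‖z‖ := norm_pos_iff.mpr hz0
  simp only [id, this, Complex.one_re]
  positivity

lemma L0_id : L0 i id = 1 := by
  simp only [L0, id, ax_zero_coord]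
  field_simp
  ring

lemma L0_H : L0 i (rad i phiH) = 5 / 3 := by
  simp only [L0, rad, PiLp.smul_apply, ax_zero_coord, smul_eq_mul, phiH, neg_sq, div_pow,
    Complex.I_sq]
  field_simp
  ring

lemma star_id : Star (id : Cn n → Cn n) := by
  have := star_id_add (n := n) (Q := 0) (by fun_prop) rfl (by simp) (by intro z _; simp)
  simpa using this

lemma star_G (s : ℂ) (hs : ‖s‖ = 1) : Star (rad i (phiG s)) := by
  have hn : ∀ ζ : ℂ, ‖ζ‖ < 1 → ‖s * ζ‖ < 1 := fun ζ h => by rwa [norm_mul, hs, one_mul]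
  have h3 : ∀ w : ℂ, ‖w‖ < 1 → 3 + w ≠ 0 := fun w h h1 => by
    have : w = -3 := by linear_combination h1
    rw [this] at h
    norm_num at h
  have hd : ∀ ζ : ℂ, ‖ζ‖ < 1 → HasDerivAt (phiG s) (4 * s / 3 / (1 - s * ζ) ^ 2) ζ := by
    intro ζ h
    have h1 : HasDerivAt (fun ζ : ℂ => 1 + s * ζ / 3) (s / 3) ζ := by
      simpa using (((hasDerivAt_id ζ).const_mul s).div_const 3).const_add 1
    have h2 : HasDerivAt (fun ζ : ℂ => 1 - s * ζ) (-s) ζ := by
      simpa using ((hasDerivAt_id ζ).const_mul s).const_sub 1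
    have := h1.div h2 (one_sub_ne (hn ζ h))
    have e : (s / 3 * (1 - s * ζ) - (1 + s * ζ / 3) * -s) / (1 - s * ζ) ^ 2 =
      4 * s / 3 / (1 - s * ζ) ^ 2 := by ring
    rw [e] at this
    exact this
  apply star_rad hd (by simp [phiG])
  · intro ζ h
    apply div_ne_zero _ (one_sub_ne (hn ζ h))
    intro h1
    exact h3 _ (hn ζ h) (by linear_combination 3 * h1)
  · intro ζ h
    have hw := hn ζ h
    have e : phiG s ζ / (phiG s ζ + ζ * (4 * s / 3 / (1 - s * ζ) ^ 2)) =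
        ((3 + s * ζ) * (1 - s * ζ)) / (3 + 2 * (s * ζ) - (s * ζ) ^ 2) := by
      have h1 := one_sub_ne hw
      have : phiG s ζ + ζ * (4 * s / 3 / (1 - s * ζ) ^ 2) =
          (3 + 2 * (s * ζ) - (s * ζ) ^ 2) / (3 * (1 - s * ζ) ^ 2) := by
        unfold phiG; field_simp; ring
      rw [this]
      unfold phiG
      field_simp
    rw [e]
    generalize s * ζ = w at hw
    have h2 : w.re ^ 2 + w.im ^ 2 < 1 := by
      have : ‖w‖ ^ 2 < 1 := by nlinarith [norm_nonneg w]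
      rw [Complex.sq_norm, Complex.normSq_apply] at this
      nlinarith
    have h4 : 3 + 2 * w - w ^ 2 ≠ 0 := by
      have : 3 + 2 * w - w ^ 2 = (3 + -w) * (1 + w) := by ring
      rw [this]
      exact mul_ne_zero (h3 _ (by simpa using hw)) (one_add_ne hw)
    rw [Complex.div_re, ← add_div]
    apply div_pos _ (Complex.normSq_pos.mpr h4)
    simp [pow_two]
    nlinarith [sq_nonneg w.re, sq_nonneg w.im, mul_pos (sub_pos.mpr h2) (sub_pos.mpr h2)]
  · intro ζ ξ h h' he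
    have h1 := one_sub_ne (hn ζ h)
    have h2 := one_sub_ne (hn ξ h')
    unfold phiG at he
    field_simp at he
    have e : (ζ - ξ) * (3 + (s * ζ + s * ξ - s * ζ * (s * ξ))) = 0 := by linear_combination he
    refine sub_eq_zero.mp ((mul_eq_zero.mp e).resolve_right fun h4 => ?_)
    have h5 : s * ζ + s * ξ - s * ζ * (s * ξ) = -3 := by linear_combination h4
    have h6 : ‖s * ζ + s * ξ - s * ζ * (s * ξ)‖ ≤ ‖s * ζ‖ + ‖s * ξ‖ + ‖s * ζ‖ * ‖s * ξ‖ := by
      refine (norm_sub_le _ _).trans ?_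
      rw [norm_mul (s * ζ)]
      gcongr
      exact norm_add_le _ _
    rw [h5] at h6
    have := hn ζ h
    have := hn ξ h'
    norm_num at h6
    rw [← norm_mul, ← norm_mul] at h6
    nlinarith [norm_nonneg (s * ζ), norm_nonneg (s * ξ)]

lemma F_decomp {z : (Cn n)} (hz : z ∈ ball (0 : (Cn n)) 1) :
    rad i phiF z = ((1 / 4 : ℂ) • (id : (Cn n) → (Cn n)) + ((3 / 8 : ℂ) • rad i (phiG 1) +
      (3 / 8 : ℂ) • rad i (phiG (-1)))) z := by
  have h := norm_coord_lt (i := i) hz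
  have h1 := one_sub_ne h
  have h2 := one_add_ne h
  have h3 := one_sub_ne (norm_sq_lt h)
  simp only [Pi.add_apply, Pi.smul_apply, id, rad, smul_smul, ← add_smul]
  congr 1
  unfold phiF phiG
  have : 1 - z i ^ 2 = (1 - z i) * (1 + z i) := by ring
  rw [this]
  simp only [one_mul, neg_mul, sub_neg_eq_add]
  field_simp
  ring

/-- the counterexample is not a support point of the starlike class -/
lemma F_not_support {L : ((Cn n) → (Cn n)) → ℂ} (hL : Fnl L)
    (hmax : ∀ g, Star g → (L g).re ≤ (L (rad i phiF)).re) {g : (Cn n) → (Cn n)}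
    (hg : DifferentiableOn ℂ g (ball 0 1)) (h0 : g 0 = 0)
    (h1 : fderiv ℂ g 0 = ContinuousLinearMap.id ℂ (Cn n)) : L g = L id := by
  have s1 := star_G (i := i) 1 (by simp)
  have s2 := star_G (i := i) (-1) (by simp)
  have d0 : DifferentiableOn ℂ ((1 / 4 : ℂ) • (id : (Cn n) → (Cn n))) (ball 0 1) :=
    differentiableOn_id.const_smul _
  have d1 := s1.1.const_smul (3 / 8 : ℂ)
  have d2 := s2.1.const_smul (3 / 8 : ℂ)
  have e := hL.congr star_F.1 (d0.add (d1.add d2)) (fun z hz => F_decomp hz)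
  rw [hL.1 _ _ d0 (d1.add d2), hL.1 _ _ d1 d2, hL.2.1 _ _ differentiableOn_id, hL.2.1 _ _ s1.1,
    hL.2.1 _ _ s2.1] at e
  have e2 : (L (rad i phiF)).re =
      1 / 4 * (L id).re + (3 / 8 * (L (rad i (phiG 1))).re + 3 / 8 * (L (rad i (phiG (-1)))).re) := by
    rw [e]
    simp
  have m1 := hmax _ s1
  have m2 := hmax _ s2
  have hid : ∀ g, Star g → (L g).re ≤ (L id).re := fun g hg => (hmax g hg).trans (by linarith)
  exact hL.const_of_id_max hid hg h0 h1

end Pool.Agent.MP_5fe217_an.H77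

end

-- part MP_5fe217_an.H77.Bridge
section

namespace Pool.Agent.MP_5fe217_an.H77

open Metric Set Filter Topology

variable {n : ℕ} {i : Fin n}

/-- holomorphic maps are strictly differentiable -/
lemma strict_of_holo {g : Cn n → Cn n} (hg : DifferentiableOn ℂ g (ball 0 1)) {z : Cn n}
    (hz : z ∈ ball (0 : Cn n) 1) : HasStrictFDerivAt g (fderiv ℂ g z) z := by
  have hA : ∀ y ∈ ball (0 : Cn n) 1, DifferentiableAt ℂ g y := fun y hy =>
    hg.differentiableAt (isOpen_ball.mem_nhds hy)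
  apply hasStrictFDerivAt_of_hasFDerivAt_of_continuousAt (f' := fun y => fderiv ℂ g y)
  · filter_upwards [isOpen_ball.mem_nhds hz] with y hy using (hA y hy).hasFDerivAt
  · rw [Metric.continuousAt_iff]
    intro ε hε
    have hlo := (hA z hz).hasFDerivAt.isLittleO
    rw [Asymptotics.isLittleO_iff] at hlo
    have h1 := (hlo (c := ε / 8) (by positivity)).and (isOpen_ball.mem_nhds hz)
    obtain ⟨δ, hδ, hδ'⟩ := Metric.eventually_nhds_iff_ball.mp h1
    refine ⟨δ / 2, by positivity, fun y hy => ?_⟩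
    set D := fderiv ℂ g z
    set h : Cn n → Cn n := fun w => g w - g z - D (w - z) with hh
    have hsub : ball y (δ / 2) ⊆ ball z δ := by
      intro w hw
      rw [mem_ball] at hw ⊢
      linarith [dist_triangle w y z]
    have hb : ∀ w ∈ ball z δ, ‖h w‖ ≤ ε / 8 * δ := fun w hw => by
      refine (hδ' w hw).1.trans ?_
      have : ‖w - z‖ < δ := by rwa [mem_ball, dist_eq_norm] at hw
      gcongr
    have hy' : y ∈ ball z δ := hsub (mem_ball_self (by positivity))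
    have hd : ∀ w ∈ ball z δ, HasFDerivAt h (fderiv ℂ g w - D) w := fun w hw => by
      have h2 := ((hA w (hδ' w hw).2).hasFDerivAt.sub_const (g z)).sub
        (D.hasFDerivAt.comp w ((hasFDerivAt_id w).sub_const z))
      rw [ContinuousLinearMap.comp_id] at h2
      exact h2
    have h3 : ‖fderiv ℂ h y‖ ≤ (ε / 4 * δ) / (δ / 2) := by
      apply Complex.norm_fderiv_le_div_of_mapsTo_ball _ _ (by positivity)
      · exact fun w hw => (hd w (hsub hw)).differentiableAt.differentiableWithinAt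
      · intro w hw
        rw [mem_closedBall, dist_eq_norm]
        have := norm_sub_le (h w) (h y)
        linarith [hb w (hsub hw), hb y hy']
    rw [(hd y hy').fderiv] at h3
    rw [dist_eq_norm]
    have h4 : (ε / 4 * δ) / (δ / 2) = ε / 2 := by field_simp; ring
    linarith

lemma Star.invertible {g : Cn n → Cn n} (hg : Star g) {z : Cn n} (hz : z ∈ ball (0 : Cn n) 1) :
    (fderiv ℂ g z).IsInvertible := by
  rcases eq_or_ne z 0 with rfl | hz0
  · rw [hg.2.2.2.1]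
    exact ⟨ContinuousLinearEquiv.refl ℂ _, rfl⟩
  · by_contra h
    have := hg.2.2.2.2 z hz hz0
    rw [ContinuousLinearMap.inverse_of_not_isInvertible h] at this
    simp at this

lemma Star.image_mem_nhds {g : Cn n → Cn n} (hg : Star g) {z : Cn n} (hz : z ∈ ball (0 : Cn n) 1) :
    g '' ball 0 1 ∈ 𝓝 (g z) := by
  obtain ⟨e, he⟩ := hg.invertible hz
  have h1 := strict_of_holo hg.1 hz
  rw [← he] at h1
  rw [← h1.map_nhds_eq_of_equiv]
  exact image_mem_map (isOpen_ball.mem_nhds hz)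

lemma Star.isOpen_image {g : Cn n → Cn n} (hg : Star g) : IsOpen (g '' ball 0 1) := by
  rw [isOpen_iff_mem_nhds]
  rintro _ ⟨z, hz, rfl⟩
  exact hg.image_mem_nhds hz

lemma Star.hasFDerivAt_inv {g : Cn n → Cn n} (hg : Star g) {z : Cn n} (hz : z ∈ ball (0 : Cn n) 1) :
    HasFDerivAt (Function.invFunOn g (ball 0 1)) (fderiv ℂ g z).inverse (g z) := by
  obtain ⟨e, he⟩ := hg.invertible hz
  have h1 := strict_of_holo hg.1 hz
  rw [← he] at h1
  rw [← he, ContinuousLinearMap.inverse_equiv]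
  refine (h1.to_local_left_inverse ?_).hasFDerivAt
  filter_upwards [isOpen_ball.mem_nhds hz] with y hy using hg.2.1.leftInvOn_invFunOn hy

/-- the analytic criterion implies that the image is starlike -/
lemma Star.smul_mem {g : Cn n → Cn n} (hg : Star g) {z : Cn n} (hz : z ∈ ball (0 : Cn n) 1)
    {τ : ℝ} (h0 : 0 < τ) (h1 : τ ≤ 1) : (τ : ℂ) • g z ∈ g '' ball 0 1 := by
  have hsub : closedBall (0 : Cn n) ‖z‖ ⊆ ball 0 1 := closedBall_subset_ball (mem_ball_zero_iff.mp hz)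
  have hK : IsClosed (g '' closedBall 0 ‖z‖) :=
    ((isCompact_closedBall _ _).image_of_continuousOn (hg.1.continuousOn.mono hsub)).isClosed
  set c : ℝ → Cn n := fun s => ((1 - s : ℝ) : ℂ) • g z with hc
  have hcc : Continuous c := by rw [hc]; fun_prop
  have key : (1 - τ) ∈ c ⁻¹' (g '' closedBall 0 ‖z‖) := by
    apply IsClosed.mem_of_ge_of_forall_exists_gt (a := 0) ((hK.preimage hcc).inter isClosed_Icc)
    · exact ⟨z, by simp, by simp [hc]⟩
    · linarith
    rintro x ⟨⟨w, hw, hwx⟩, hx0, hx1⟩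
    have hx : 0 < 1 - x := by linarith
    rcases eq_or_ne w 0 with rfl | hw0
    · have h2 : g z = 0 := by
        rw [hg.2.2.1] at hwx
        have h3 : ((1 - x : ℝ) : ℂ) ≠ 0 := by exact_mod_cast hx.ne'
        exact (smul_eq_zero.mp hwx.symm).resolve_left h3
      exact ⟨1 - τ, ⟨0, by simp, by simp [hc, h2, hg.2.2.1]⟩, hx1, le_rfl⟩
    set G := Function.invFunOn g (ball 0 1)
    have hwb := hsub hw
    have hGw : G (c x) = w := by rw [← hwx]; exact hg.2.1.leftInvOn_invFunOn hwb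
    have hcd : HasDerivAt c (-g z) x := by
      have h2 : HasDerivAt (fun s : ℝ => ((1 - s : ℝ) : ℂ)) (-1) x := by
        have := ((hasDerivAt_id x).const_sub 1).ofReal_comp
        simpa using this
      have h3 := h2.smul_const (g z)
      rw [neg_one_smul] at h3
      exact h3
    have hG : HasFDerivAt G ((fderiv ℂ g w).inverse.restrictScalars ℝ) (c x) := by
      rw [← hwx]
      exact (hg.hasFDerivAt_inv hwb).restrictScalars ℝ
    have hv : HasDerivAt (fun s => G (c s)) ((fderiv ℂ g w).inverse (-g z)) x :=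
      hG.comp_hasDerivAt x hcd
    set u := (fderiv ℂ g w).inverse (-g z) with hu
    have hφ : HasDerivAt (fun s => (inner ℂ (G (c s)) (G (c s))).re)
        ((inner ℂ w u + inner ℂ u w).re) x := by
      have h2 := HasDerivAt.inner ℂ hv hv
      rw [hGw] at h2
      exact Complex.reCLM.hasFDerivAt.comp_hasDerivAt x h2
    have hneg : (inner ℂ w u + inner ℂ u w).re < 0 := by
      have h2 := hg.2.2.2.2 w hwb hw0
      have h3 : (fderiv ℂ g w).inverse (g w) = ((-(1 - x) : ℝ) : ℂ) • u := by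
        rw [hu, ← map_smul, hwx, hc]
        congr 1
        push_cast
        simp only [neg_sub, smul_neg]
        rw [← neg_smul, neg_sub]
      rw [h3, inner_smul_right, Complex.re_ofReal_mul] at h2
      have h4 : (inner ℂ u w).re = (inner ℂ w u).re := inner_re_symm (𝕜 := ℂ) u w
      rw [Complex.add_re, h4]
      nlinarith
    have h5 := (hasDerivAt_iff_tendsto_slope.mp hφ).eventually (gt_mem_nhds hneg)
    have h6 : ∀ᶠ y in 𝓝[>] x, slope (fun s => (inner ℂ (G (c s)) (G (c s))).re) x y < 0 :=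
      h5.filter_mono (nhdsWithin_mono _ fun y hy => ne_of_gt hy)
    have h7 : ∀ᶠ y in 𝓝[>] x, c y ∈ g '' ball 0 1 :=
      nhdsWithin_le_nhds (hcc.continuousAt.preimage_mem_nhds (hwx ▸ hg.image_mem_nhds hwb))
    obtain ⟨y, ⟨hy1, hy2⟩, hy3⟩ := ((h6.and h7).and (Ioc_mem_nhdsGT hx1)).exists
    refine ⟨y, ⟨G (c y), ?_, Function.invFunOn_eq hy2⟩, hy3⟩
    rw [slope_def_field, div_neg_iff] at hy1
    have h8 : (inner ℂ (G (c y)) (G (c y))).re < (inner ℂ (G (c x)) (G (c x))).re := by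
      rcases hy1 with h | h
      · linarith [h.2, hy3.1]
      · linarith [h.1]
    have h9 : ∀ v : Cn n, (inner ℂ v v).re = ‖v‖ ^ 2 := fun v => by
      have := re_inner_smul v 1
      simpa using this
    rw [h9, h9, hGw] at h8
    rw [mem_closedBall_zero_iff] at hw ⊢
    exact (le_of_lt (lt_of_pow_lt_pow_left₀ 2 (norm_nonneg _) h8)).trans hw
  obtain ⟨w, hw, hw'⟩ := key
  refine ⟨w, hsub hw, ?_⟩
  rw [hw', hc]
  simp

/-- a holomorphic map on the ball as an element of the function space -/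
noncomputable def mk (g : Cn n → Cn n) (hg : DifferentiableOn ℂ g (ball 0 1)) : Hol (Cn n) :=
  ⟨⟨fun z => g z.1, hg.continuousOn.domRestrict⟩, hg.congr fun z hz => by
    rw [extz, dif_pos hz]; rfl⟩

lemma mk_apply {g : Cn n → Cn n} (hg : DifferentiableOn ℂ g (ball 0 1)) (z : Ball n) :
    (mk g hg).1 z = g z.1 := rfl

lemma extz_mk {g : Cn n → Cn n} (hg : DifferentiableOn ℂ g (ball 0 1)) {z : Cn n}
    (hz : z ∈ ball (0 : Cn n) 1) : extz (mk g hg).1 z = g z := by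
  simp [extz, hz, mk_apply]

lemma fderiv_extz_mk {g : Cn n → Cn n} (hg : DifferentiableOn ℂ g (ball 0 1)) {z : Cn n}
    (hz : z ∈ ball (0 : Cn n) 1) : fderiv ℂ (extz (mk g hg).1) z = fderiv ℂ g z := by
  apply Filter.EventuallyEq.fderiv_eq
  filter_upwards [isOpen_ball.mem_nhds hz] with y hy using extz_mk hg hy

lemma extz_coe (f : C(Ball n, Cn n)) (z : Ball n) : extz f z.1 = f z := by
  simp [extz, z.2]

lemma mk_extz (f : Hol (Cn n)) : mk (extz f.1) f.2 = f := by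
  apply Subtype.ext
  ext1 z
  exact extz_coe f.1 z

lemma range_mk {g : Cn n → Cn n} (hg : DifferentiableOn ℂ g (ball 0 1)) :
    range (mk g hg).1 = g '' ball 0 1 := by
  ext y
  constructor
  · rintro ⟨z, rfl⟩
    exact ⟨z.1, z.2, rfl⟩
  · rintro ⟨z, hz, rfl⟩
    exact ⟨⟨z, hz⟩, rfl⟩

lemma exp_smul_id (t : ℝ) (v : Cn n) :
    NormedSpace.exp ((-t : ℂ) • ContinuousLinearMap.id ℂ (Cn n)) v = ((Real.exp (-t) : ℝ) : ℂ) • v := by
  have h1 : (-t : ℂ) • ContinuousLinearMap.id ℂ (Cn n) = algebraMap ℂ (Cn n →L[ℂ] Cn n) (-t : ℂ) := by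
    rw [Algebra.algebraMap_eq_smul_one]; rfl
  rw [h1, ← NormedSpace.algebraMap_exp_comm, ← Complex.exp_eq_exp_ℂ, Algebra.algebraMap_eq_smul_one]
  simp

lemma Star.mk_mem {g : Cn n → Cn n} (hg : Star g) :
    mk g hg.1 ∈ Shat (ContinuousLinearMap.id ℂ (Cn n)) := by
  have h00 : (0 : Cn n) ∈ ball (0 : Cn n) 1 := by simp
  refine ⟨⟨by rw [extz_mk _ h00, hg.2.2.1], by rw [fderiv_extz_mk _ h00, hg.2.2.2.1]⟩, ⟨?_,
    ⟨Function.invFunOn g (ball 0 1), ?_, fun z => hg.2.1.leftInvOn_invFunOn z.2⟩⟩, fun z t ht => ?_⟩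
  · rw [range_mk]; exact hg.isOpen_image
  · rw [range_mk]
    rintro _ ⟨z, hz, rfl⟩
    exact (hg.hasFDerivAt_inv hz).differentiableAt.differentiableWithinAt
  · rw [range_mk, exp_smul_id, mk_apply]
    exact hg.smul_mem z.2 (Real.exp_pos _) (Real.exp_le_one_iff.mpr (by linarith))

lemma Car.mk_mem {g : Cn n → Cn n} (hg : Car g) :
    mk g hg.1 ∈ Ngen (ContinuousLinearMap.id ℂ (Cn n)) := by
  have h00 : (0 : Cn n) ∈ ball (0 : Cn n) 1 := by simp
  exact ⟨⟨by rw [extz_mk _ h00, hg.2.1], by rw [fderiv_extz_mk _ h00, hg.2.2.1]⟩,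
    fun z hz => hg.2.2.2 z.1 z.2 hz⟩

lemma car_extz {h : Hol (Cn n)} (hh : h ∈ Ngen (ContinuousLinearMap.id ℂ (Cn n))) : Car (extz h.1) :=
  ⟨h.2, hh.1.1, hh.1.2, fun z hz hz0 => by
    have := hh.2 ⟨z, hz⟩ hz0
    rwa [← extz_coe] at this⟩

open Classical in
/-- a functional on the function space as a functional on maps -/
noncomputable def toL (Λ : Hol (Cn n) →L[ℂ] ℂ) (g : Cn n → Cn n) : ℂ :=
  if h : DifferentiableOn ℂ g (ball 0 1) then Λ (mk g h) else 0

lemma toL_eq (Λ : Hol (Cn n) →L[ℂ] ℂ) {g : Cn n → Cn n} (hg : DifferentiableOn ℂ g (ball 0 1)) :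
    toL Λ g = Λ (mk g hg) := dif_pos hg

lemma fnl_toL (Λ : Hol (Cn n) →L[ℂ] ℂ) : Fnl (toL Λ) := by
  refine ⟨fun g₁ g₂ h₁ h₂ => ?_, fun c g hg => ?_, ?_⟩
  · rw [toL_eq Λ (h₁.add h₂), toL_eq Λ h₁, toL_eq Λ h₂, ← map_add]
    rfl
  · rw [toL_eq Λ (hg.const_smul c), toL_eq Λ hg, ← smul_eq_mul, ← map_smul]
    rfl
  have h1 : Λ ⁻¹' ball 0 1 ∈ 𝓝 (0 : Hol (Cn n)) :=
    Λ.continuous.continuousAt.preimage_mem_nhds (by rw [map_zero]; exact ball_mem_nhds _ one_pos)
  obtain ⟨U, hU, hUs⟩ := (mem_nhds_subtype _ _ _).mp h1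
  obtain ⟨V, hV, hVs⟩ := UniformSpace.mem_nhds_iff.mp hU
  obtain ⟨K, W, hK, hW, hKW⟩ := (ContinuousMap.mem_compactConvergence_entourage_iff V).mp hV
  obtain ⟨ε, hε, hεW⟩ := Metric.mem_uniformity_dist.mp hW
  have hsmall : ∀ f : Hol (Cn n), (∀ x ∈ K, ‖f.1 x‖ < ε) → ‖Λ f‖ < 1 := fun f hf => by
    have h2 : f.1 ∈ U := hVs (hKW fun x hx => hεW (by simpa using hf x hx))
    simpa using hUs h2
  refine ⟨insert 0 (Subtype.val '' K), (hK.image continuous_subtype_val).insert 0, ?_, 2 / ε,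
    fun g hg M hM => ?_⟩
  · rintro x (rfl | ⟨y, _, rfl⟩)
    · simp
    · exact y.2
  have hM0 : 0 ≤ M := (norm_nonneg _).trans (hM 0 (mem_insert _ _))
  rw [toL_eq Λ hg]
  refine le_of_forall_pos_le_add fun η hη => ?_
  set a : ℝ := 2 / ε * M + η with ha
  have ha0 : 0 < a := by positivity
  have h3 := hsmall (((a⁻¹ : ℝ) : ℂ) • mk g hg) fun x hx => by
    have h4 : ‖g x.1‖ ≤ M := hM _ (mem_insert_of_mem _ ⟨x, hx, rfl⟩)
    have h5 : (((a⁻¹ : ℝ) : ℂ) • mk g hg).1 x = ((a⁻¹ : ℝ) : ℂ) • g x.1 := rfl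
    rw [h5, norm_smul, Complex.norm_real, Real.norm_of_nonneg (inv_pos.mpr ha0).le,
      inv_mul_lt_iff₀ ha0, ha]
    have h6 : (2 / ε * M + η) * ε = 2 * M + η * ε := by field_simp
    rw [h6]
    nlinarith [mul_pos hη hε]
  rw [map_smul, norm_smul, Complex.norm_real, Real.norm_of_nonneg (inv_pos.mpr ha0).le,
    inv_mul_lt_iff₀ ha0, mul_one] at h3
  exact h3.le

lemma ax_mem {ζ : ℂ} (h : ‖ζ‖ < 1) : ax i ζ ∈ ball (0 : Cn n) 1 := by
  rwa [mem_ball_zero_iff, norm_ax]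

lemma I_half_lt : ‖Complex.I / 2‖ < 1 := by rw [norm_I_half]; norm_num

lemma neg_I_half_lt : ‖-(Complex.I / 2)‖ < 1 := by rw [norm_neg]; exact I_half_lt

/-- the supporting functional as a continuous linear functional on the function space -/
noncomputable def Lam0 (i : Fin n) : Hol (Cn n) →L[ℂ] ℂ :=
  (Complex.I⁻¹ • (((EuclideanSpace.proj i : Cn n →L[ℂ] ℂ).comp
      (ContinuousMap.evalCLM ℂ (⟨ax i (Complex.I / 2), ax_mem I_half_lt⟩ : Ball n))) -
    ((EuclideanSpace.proj i : Cn n →L[ℂ] ℂ).comp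
      (ContinuousMap.evalCLM ℂ (⟨ax i (-(Complex.I / 2)), ax_mem neg_I_half_lt⟩ : Ball n))))).comp
    (Hol (Cn n)).subtypeL

lemma Lam0_eq (f : Hol (Cn n)) : Lam0 i f = L0 i (extz f.1) := by
  have h1 := extz_coe f.1 (⟨ax i (Complex.I / 2), ax_mem I_half_lt⟩ : Ball n)
  have h2 := extz_coe f.1 (⟨ax i (-(Complex.I / 2)), ax_mem neg_I_half_lt⟩ : Ball n)
  simp only at h1 h2
  rw [L0, h1, h2, div_eq_inv_mul]
  rfl

lemma Lam0_mk {g : Cn n → Cn n} (hg : DifferentiableOn ℂ g (ball 0 1)) :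
    Lam0 i (mk g hg) = L0 i g := by
  rw [Lam0_eq, L0, L0, extz_mk hg (ax_mem I_half_lt), extz_mk hg (ax_mem neg_I_half_lt)]

lemma mlow_id (i : Fin n) : mlow (ContinuousLinearMap.id ℂ (Cn n)) = 1 := by
  have : (fun z : Cn n => (inner ℂ z (ContinuousLinearMap.id ℂ (Cn n) z)).re) '' sphere 0 1 = {1} := by
    have h9 : ∀ v : Cn n, (inner ℂ v v).re = ‖v‖ ^ 2 := fun v => by
      have := re_inner_smul v 1
      simpa using this
    ext y
    constructor
    · rintro ⟨z, hz, rfl⟩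
      simp only [ContinuousLinearMap.id_apply, h9, mem_sphere_zero_iff_norm.mp hz]
      simp
    · rintro rfl
      refine ⟨ax i 1, by rw [mem_sphere_zero_iff_norm, norm_ax, norm_one], ?_⟩
      simp only [ContinuousLinearMap.id_apply, h9, norm_ax]
      simp
  rw [mlow, this, csInf_singleton]

lemma kplus_id (i : Fin n) : kplus (ContinuousLinearMap.id ℂ (Cn n)) = 1 := by
  have : Nontrivial (Cn n) := ⟨⟨ax i 1, 0, by
    rw [Ne, ← norm_eq_zero, norm_ax]; simp⟩⟩
  have : spectrum ℂ (ContinuousLinearMap.id ℂ (Cn n)) = {1} := spectrum.one_eq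
  rw [kplus, this, image_singleton, csSup_singleton, Complex.one_re]

end Pool.Agent.MP_5fe217_an.H77

end
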